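import Pool.Agent.H29.SL.Targets

/-!
# Module LB: the cubic lemma, case `c = 2`
-/

set_option autoImplicit false

namespace Pool.Agent.H58.SL

open Pool.Agent.H29.SL

theorem lb_neg (P U k : ℤ) (hU : 0 ≤ U) (hPU : 2 * U + 3 ≤ P)
    (h : ((P - 1) * U) ^ 2 + (P - 1) * U + 1 = P ^ 2 * k) : False := by
  obtain ⟨g, hg⟩ : ∃ g : ℤ, g = 2 * U ^ 2 + U + P * (k - U ^ 2) := ⟨_, rfl⟩
  -- in the case `s = 1` of the sign of `X` the number `u ^ 2 - u + 1` appears
  have h0 : 0 < P := by linarith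
  have h1 : U ^ 2 - U + 1 = P * (g - 2 * U) := by
    rw [hg]
    linear_combination h
  obtain ⟨e, he⟩ : ∃ e : ℤ, e = g - 2 * U := ⟨_, rfl⟩
  rw [← he] at h1
  have h2 : e + 2 - U = P * (2 * e + k - U ^ 2) := by
    have h3 : e = 2 * U ^ 2 - U + P * (k - U ^ 2) := by
      rw [he, hg]
      ring
    linear_combination h3 + 2 * h1
  obtain ⟨w, hw⟩ : ∃ w : ℤ, w = 2 * e + k - U ^ 2 := ⟨_, rfl⟩
  rw [← hw] at h2
  have hePos : 0 < e := by
    by_contra hcon
    have : P * e ≤ 0 := mul_nonpos_of_nonneg_of_nonpos h0.le (by linarith)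
    nlinarith [sq_nonneg (U - 1)]
  rcases lt_trichotomy w 0 with hw0 | hw0 | hw0
  · have : P * w ≤ P * (-1) := mul_le_mul_of_nonneg_left (by omega) h0.le
    linarith
  · rw [hw0, mul_zero] at h2
    have hU2 : U = e + 2 := by linarith
    subst hU2
    nlinarith [mul_le_mul_of_nonneg_right hPU hePos.le]
  · have h3 : P * 1 ≤ P * w := mul_le_mul_of_nonneg_left (by omega) h0.le
    have h4 : P * (P - 2 + U) ≤ P * e := mul_le_mul_of_nonneg_left (by linarith) h0.le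
    have h5 : (2 * U + 3) * (3 * U + 1) ≤ P * (P - 2 + U) :=
      mul_le_mul hPU (by linarith) (by linarith) h0.le
    nlinarith [sq_nonneg U]

theorem lb_pos (P U k : ℤ) (hU : 0 ≤ U) (hPU : 2 * U + 3 ≤ P)
    (h : ((P - 1) * U) ^ 2 - (P - 1) * U + 1 = P ^ 2 * k) : False := by
  have h0 : 0 < P := by linarith
  obtain ⟨e, he⟩ : ∃ e : ℤ, e = 2 * U ^ 2 + U + P * (k - U ^ 2) := ⟨_, rfl⟩
  have h1 : U ^ 2 + U + 1 = P * e := by
    rw [he]
    linear_combination h
  have h2 : e + 2 + U = P * (2 * e + k - U ^ 2) := by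
    linear_combination he + 2 * h1
  obtain ⟨w, hw⟩ : ∃ w : ℤ, w = 2 * e + k - U ^ 2 := ⟨_, rfl⟩
  rw [← hw] at h2
  have hePos : 0 < e := by
    by_contra hcon
    have : P * e ≤ 0 := mul_nonpos_of_nonneg_of_nonpos h0.le (by linarith)
    nlinarith [sq_nonneg U]
  have hwPos : 0 < w := by
    by_contra hcon
    have : P * w ≤ 0 := mul_nonpos_of_nonneg_of_nonpos h0.le (by linarith)
    linarith
  have h3 : P * 1 ≤ P * w := mul_le_mul_of_nonneg_left (by omega) h0.le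
  have h4 : P * (P - 2 - U) ≤ P * e := mul_le_mul_of_nonneg_left (by linarith) h0.le
  have h5 : (2 * U + 3) * (U + 1) ≤ P * (P - 2 - U) :=
    mul_le_mul hPU (by linarith) (by linarith) h0.le
  nlinarith [sq_nonneg U]

theorem pf_LB : T_LB := by
  intro p u X hp hp7 hX hdiv
  have hodd : p % 2 = 1 := by
    rcases hp.eq_two_or_odd with h | h
    · omega
    · exact h
  have key : p - 1 ≤ 2 * u := by
    by_contra hcon
    have h1 : 2 * u + 3 ≤ p := by omega
    have h1' : 2 * (u : ℤ) + 3 ≤ (p : ℤ) := by exact_mod_cast h1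
    have hXc : (X : ℤ) = ((p : ℤ) - 1) * u := by
      rw [hX]
      push_cast [Nat.cast_sub (by omega : 1 ≤ p)]
      ring
    rcases hdiv with hd | hd
    · obtain ⟨k, hk⟩ := hd
      refine lb_neg p u k (by positivity) h1' ?_
      rw [← hXc]
      exact_mod_cast hk
    · obtain ⟨k, hk⟩ := hd
      refine lb_pos p u k (by positivity) h1' ?_
      rw [← hXc]
      have h2 : X ≤ X ^ 2 + 1 := by nlinarith
      have h3 : ((X ^ 2 + 1 - X : ℕ) : ℤ) = (X : ℤ) ^ 2 + 1 - X := by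
        push_cast [Nat.cast_sub h2]
        ring
      have h4 : ((X ^ 2 + 1 - X : ℕ) : ℤ) = (p : ℤ) ^ 2 * k := by exact_mod_cast hk
      rw [h3] at h4
      linarith
  by_cases h7 : p = 7
  · subst h7
    have hu3 : 3 ≤ u := by omega
    refine ⟨?_, fun h => absurd rfl h⟩
    calc 7 ^ 6 ≤ 684 * 3 ^ 10 := by norm_num
      _ ≤ 684 * u ^ 10 := Nat.mul_le_mul_left _ (Nat.pow_le_pow_left hu3 10)
  · have hp11 : 11 ≤ p := by
      by_contra hcon
      have : p = 8 ∨ p = 9 ∨ p = 10 := by omega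
      rcases this with rfl | rfl | rfl <;> revert hp <;> norm_num
    have h5 : 5 * p ≤ 11 * u := by omega
    have h6 : (5 * p) ^ 10 ≤ (11 * u) ^ 10 := Nat.pow_le_pow_left h5 10
    have h7 : 11 ^ 4 ≤ p ^ 4 := Nat.pow_le_pow_left hp11 4
    have h8 : p ^ 6 ≤ u ^ 10 := by
      have e1 : (5 * p) ^ 10 = 5 ^ 10 * (p ^ 4 * p ^ 6) := by ring
      have e2 : (11 * u) ^ 10 = 11 ^ 10 * u ^ 10 := by ring
      rw [e1, e2] at h6
      have h9 : 11 ^ 4 * p ^ 6 ≤ p ^ 4 * p ^ 6 := Nat.mul_le_mul_right _ h7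
      have h10 : 5 ^ 10 * (11 ^ 4 * p ^ 6) ≤ 11 ^ 10 * u ^ 10 :=
        (Nat.mul_le_mul_left _ h9).trans h6
      have h11 : 11 ^ 10 * p ^ 6 ≤ 5 ^ 10 * (11 ^ 4 * p ^ 6) := by
        rw [← mul_assoc]
        exact Nat.mul_le_mul_right _ (by norm_num)
      exact Nat.le_of_mul_le_mul_left (h11.trans h10) (by norm_num)
    exact ⟨h8.trans (Nat.le_mul_of_pos_left _ (by norm_num)), fun _ => h8⟩

end Pool.Agent.H58.SL
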