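import Pool.Agent.H29.SL.Targets

/-!
# Module ST: Stoermer type lemma
-/

set_option autoImplicit false

namespace Pool.Agent.H58.SL

open Pool.Agent.H29.SL

theorem xz_fst (Y : ℤ) (j : ℕ) : (XZ Y (j + 1)).1 =
    (2 * Y - 1) * (XZ Y j).1 + 2 * (Y - 1) * (XZ Y j).2 := rfl

theorem xz_snd (Y : ℤ) (j : ℕ) : (XZ Y (j + 1)).2 =
    (2 * Y - 1) * (XZ Y j).2 + 2 * Y * (XZ Y j).1 := rfl

theorem xz_pos (Y : ℤ) (hY : 2 ≤ Y) (j : ℕ) : 1 ≤ (XZ Y j).1 ∧ 1 ≤ (XZ Y j).2 := by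
  induction j with
  | zero => exact ⟨le_rfl, le_rfl⟩
  | succ j ih =>
    obtain ⟨h1, h2⟩ := ih
    rw [xz_fst, xz_snd]
    constructor <;> nlinarith

theorem xz_big (Y : ℤ) (hY : 2 ≤ Y) (j : ℕ) : 4 * Y - 3 ≤ (XZ Y (j + 1)).1 := by
  obtain ⟨h1, h2⟩ := xz_pos Y hY j
  rw [xz_fst]
  nlinarith

/-- congruences modulo `Y` and `Y ^ 2` -/
theorem xz_mod (Y : ℤ) (j : ℕ) : ∃ q r s : ℤ,
    (XZ Y j).1 = (-1) ^ j * (2 * j + 1) + Y * q ∧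
    3 * (XZ Y j).1 = (-1) ^ j * ((2 * j + 1) * (3 - 2 * Y * (j * (j + 1)))) + Y ^ 2 * r ∧
    (XZ Y j).2 = (-1) ^ j * (1 - 2 * Y * (j * (j + 1))) + Y ^ 2 * s := by
  induction j with
  | zero => exact ⟨0, 0, 0, by simp [XZ], by simp [XZ], by simp [XZ]⟩
  | succ j ih =>
    obtain ⟨q, r, s, h1, h2, h3⟩ := ih
    rw [xz_fst, xz_snd]
    obtain ⟨e, he⟩ : ∃ e : ℤ, e = (-1) ^ j := ⟨_, rfl⟩
    have he1 : (-1 : ℤ) ^ (j + 1) = -e := by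
      rw [pow_succ, he]
      ring
    rw [he1]
    rw [← he] at h1 h2 h3
    push_cast
    refine ⟨-q + 2 * (XZ Y j).1 + 2 * (XZ Y j).2 + 4 * e * (j * (j + 1)) - 2 * Y * s,
      -r - 6 * s + 2 * Y * r + 6 * Y * s - 4 * e * ((2 * j + 1) * (j * (j + 1))) -
        12 * e * (j * (j + 1)), -s + 2 * Y * s - 4 * e * (j * (j + 1)) + 2 * q, ?_, ?_, ?_⟩
    · linear_combination (-1) * h1 - 2 * h3
    · linear_combination (2 * Y - 1) * h2 + 6 * (Y - 1) * h3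
    · linear_combination (2 * Y - 1) * h3 + 2 * Y * h1

/-- the odd multiples, `m = 0` -/
theorem xz_dbl (Y : ℤ) (j : ℕ) :
    (XZ Y (2 * j + 1)).1 = (Y * (XZ Y j).1 ^ 2 + (Y - 1) * (XZ Y j).2 ^ 2) +
      2 * (Y - 1) * (XZ Y j).1 * (XZ Y j).2 ∧
    (XZ Y (2 * j + 1)).2 = (Y * (XZ Y j).1 ^ 2 + (Y - 1) * (XZ Y j).2 ^ 2) +
      2 * Y * (XZ Y j).1 * (XZ Y j).2 := by
  induction j with
  | zero =>
    constructor
    · simp only [XZ]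
      ring
    · simp only [XZ]
      ring
  | succ j ih =>
    obtain ⟨h1, h2⟩ := ih
    have e : 2 * (j + 1) + 1 = (2 * j + 1) + 1 + 1 := by ring
    rw [e, xz_fst Y (2 * j + 1 + 1), xz_snd Y (2 * j + 1 + 1), xz_fst Y (2 * j + 1),
      xz_snd Y (2 * j + 1), h1, h2, xz_fst Y j, xz_snd Y j]
    constructor <;> ring

theorem xz_add (Y : ℤ) (j m : ℕ) :
    (XZ Y (m + (2 * j + 1))).1 = (Y * (XZ Y j).1 ^ 2 + (Y - 1) * (XZ Y j).2 ^ 2) * (XZ Y m).1 +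
      2 * (Y - 1) * (XZ Y j).1 * (XZ Y j).2 * (XZ Y m).2 ∧
    (XZ Y (m + (2 * j + 1))).2 = (Y * (XZ Y j).1 ^ 2 + (Y - 1) * (XZ Y j).2 ^ 2) * (XZ Y m).2 +
      2 * Y * (XZ Y j).1 * (XZ Y j).2 * (XZ Y m).1 := by
  induction m with
  | zero =>
    obtain ⟨h1, h2⟩ := xz_dbl Y j
    rw [zero_add, h1, h2]
    simp only [XZ]
    constructor <;> ring
  | succ m ih =>
    obtain ⟨h1, h2⟩ := ih
    have e : m + 1 + (2 * j + 1) = m + (2 * j + 1) + 1 := by ring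
    rw [e, xz_fst Y (m + (2 * j + 1)), xz_snd Y (m + (2 * j + 1)), h1, h2, xz_fst Y m,
      xz_snd Y m]
    constructor <;> ring

theorem xz_dvd (Y : ℤ) (j i : ℕ) : (XZ Y j).1 ∣ (XZ Y (j + i * (2 * j + 1))).1 := by
  induction i with
  | zero =>
    rw [zero_mul, add_zero]
  | succ i ih =>
    have e : j + (i + 1) * (2 * j + 1) = j + i * (2 * j + 1) + (2 * j + 1) := by ring
    rw [e, (xz_add Y j (j + i * (2 * j + 1))).1]
    refine dvd_add (Dvd.dvd.mul_left ih _) ?_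
    have : 2 * (Y - 1) * (XZ Y j).1 * (XZ Y j).2 * (XZ Y (j + i * (2 * j + 1))).2 =
      (XZ Y j).1 * (2 * (Y - 1) * (XZ Y j).2 * (XZ Y (j + i * (2 * j + 1))).2) := by ring
    rw [this]
    exact dvd_mul_right _ _

theorem pf_ST (h1 : T_ST1) : T_ST := by
  intro p c t y hp hp5 hc ht h
  have hppos : 0 < p := hp.pos
  have hpc : p ≤ p ^ c := by
    calc p = p ^ 1 := (pow_one p).symm
      _ ≤ p ^ c := Nat.pow_le_pow_right hppos hc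
  have hpt : 1 ≤ p ^ t := Nat.one_le_pow _ _ hppos
  obtain ⟨Y, hYdef⟩ : ∃ Y : ℤ, Y = (p : ℤ) ^ c := ⟨_, rfl⟩
  have hYp : (p : ℤ) ≤ Y := by
    rw [hYdef]
    exact_mod_cast hpc
  have hp5' : (5 : ℤ) ≤ (p : ℤ) := by exact_mod_cast hp5
  have hY2 : 2 ≤ Y := by linarith
  have hdY : (p : ℤ) ∣ Y := by
    rw [hYdef]
    exact dvd_pow_self _ (by omega)
  have hyz : Y * ((p : ℤ) ^ t) ^ 2 = (Y - 1) * (y : ℤ) ^ 2 + 1 := by
    have h2 : ((p ^ c * (p ^ t) ^ 2 : ℕ) : ℤ) = (((p ^ c - 1) * y ^ 2 + 1 : ℕ) : ℤ) := by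
      rw [h]
    push_cast [Nat.cast_sub (hpc.trans' hppos : 1 ≤ p ^ c)] at h2
    rw [hYdef]
    exact h2
  have hy1 : 1 ≤ (y : ℤ) := by
    rcases Nat.eq_zero_or_pos y with hy | hy
    · subst hy
      have h3 : 1 ≤ ((p : ℤ) ^ t) ^ 2 := by
        have : (1 : ℤ) ≤ (p : ℤ) ^ t := by exact_mod_cast hpt
        nlinarith
      simp only [Nat.cast_zero] at hyz
      nlinarith
    · exact_mod_cast hy
  obtain ⟨m, hm⟩ := h1 Y ((p : ℤ) ^ t) y hY2 (by exact_mod_cast hpt) hy1 hyz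
  have hXm : (XZ Y m).1 = (p : ℤ) ^ t := by rw [hm]
  -- `p` divides `2 m + 1`
  have hpm : p ∣ 2 * m + 1 := by
    obtain ⟨q, r, s, hq, -, -⟩ := xz_mod Y m
    have h4 : (p : ℤ) ∣ (-1) ^ m * (2 * (m : ℤ) + 1) := by
      have e : (-1 : ℤ) ^ m * (2 * (m : ℤ) + 1) = (p : ℤ) ^ t - Y * q := by
        rw [← hXm, hq]
        ring
      rw [e]
      exact dvd_sub (dvd_pow_self _ (by omega)) (Dvd.dvd.mul_right hdY _)
    have h5 : (p : ℤ) ∣ 2 * (m : ℤ) + 1 := by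
      have hu : IsUnit ((-1 : ℤ) ^ m) := (isUnit_one.neg).pow m
      exact (hu.dvd_mul_left).1 h4
    exact_mod_cast h5
  obtain ⟨s0, hs0⟩ := hpm
  have hpodd : p % 2 = 1 := by
    rcases hp.eq_two_or_odd with h | h
    · omega
    · exact h
  have hs0odd : s0 % 2 = 1 := by
    rcases Nat.mod_two_eq_zero_or_one s0 with h | h
    · exfalso
      have h6 : (p * s0) % 2 = 0 := by
        rw [Nat.mul_mod, h]
        simp
      omega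
    · exact h
  obtain ⟨j, hj⟩ : ∃ j, p = 2 * j + 1 := ⟨p / 2, by omega⟩
  obtain ⟨i, hi⟩ : ∃ i, s0 = 2 * i + 1 := ⟨s0 / 2, by omega⟩
  have hmj : m = j + i * (2 * j + 1) := by
    have h7 : 2 * m + 1 = 2 * (j + i * (2 * j + 1)) + 1 := by
      rw [hs0, hi, hj]
      ring
    omega
  have hdv : (XZ Y j).1 ∣ (p : ℤ) ^ t := by
    rw [← hXm, hmj]
    exact xz_dvd Y j i
  obtain ⟨hXj, -⟩ := xz_pos Y hY2 j
  obtain ⟨N, hN⟩ : ∃ N : ℕ, (N : ℤ) = (XZ Y j).1 := ⟨(XZ Y j).1.toNat, by omega⟩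
  rw [← hN] at hdv
  have hdv' : N ∣ p ^ t := by exact_mod_cast hdv
  obtain ⟨s, -, hs⟩ := (Nat.dvd_prime_pow hp).1 hdv'
  have hj1 : 1 ≤ j := by omega
  have hbig : 4 * Y - 3 ≤ (XZ Y j).1 := by
    obtain ⟨j', rfl⟩ : ∃ j', j = j' + 1 := ⟨j - 1, by omega⟩
    exact xz_big Y hY2 j'
  have hs2 : 2 ≤ s := by
    by_contra hcon
    have h8 : s ≤ 1 := by omega
    have h9 : N ≤ p := by
      rw [hs]
      calc p ^ s ≤ p ^ 1 := Nat.pow_le_pow_right hppos h8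
        _ = p := pow_one p
    have h10 : (N : ℤ) ≤ p := by exact_mod_cast h9
    linarith
  obtain ⟨q, r, s', -, hr, -⟩ := xz_mod Y j
  have h11 : (p : ℤ) ^ 2 ∣ 3 * (XZ Y j).1 := by
    rw [← hN, hs]
    push_cast
    exact Dvd.dvd.mul_left (pow_dvd_pow _ hs2) _
  have hjp : (2 * (j : ℤ) + 1) = (p : ℤ) := by
    rw [hj]
    push_cast
    ring
  rw [hr, hjp] at h11
  obtain ⟨Y', hY'⟩ := hdY
  have h12 : (p : ℤ) ^ 2 ∣ (-1) ^ j * (3 * (p : ℤ)) := by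
    have e : (-1 : ℤ) ^ j * (3 * (p : ℤ)) =
        ((-1) ^ j * ((p : ℤ) * (3 - 2 * Y * (j * (j + 1)))) + Y ^ 2 * r) +
          (p : ℤ) ^ 2 * ((-1) ^ j * (2 * Y' * (j * (j + 1))) - Y' ^ 2 * r) := by
      rw [hY']
      ring
    rw [e]
    exact dvd_add h11 (dvd_mul_right _ _)
  have h13 : (p : ℤ) ^ 2 ∣ 3 * (p : ℤ) := by
    have hu : IsUnit ((-1 : ℤ) ^ j) := (isUnit_one.neg).pow j
    exact (hu.dvd_mul_left).1 h12
  have h14 : (p : ℤ) ^ 2 ≤ 3 * p := Int.le_of_dvd (by linarith) h13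
  nlinarith

end Pool.Agent.H58.SL
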