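import Pool.Agent.H29.SL.Targets

/-!
# Module ST1: all solutions of `Y x ^ 2 = (Y - 1) z ^ 2 + 1`
-/

set_option autoImplicit false

namespace Pool.Agent.H58.SL

open Pool.Agent.H29.SL

theorem pf_ST1 : T_ST1 := by
  intro Y x z hY hx hz h
  obtain ⟨n, hn⟩ : ∃ n : ℕ, z ≤ n := ⟨z.toNat, by omega⟩
  induction n generalizing x z with
  | zero =>
    push_cast at hn
    omega
  | succ n ih =>
    by_cases hz1 : z = 1
    · subst hz1
      have hx1 : x = 1 := by
        by_contra hne
        have hx2 : 2 ≤ x := by omega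
        nlinarith [mul_le_mul hx2 hx2 (by norm_num) (by linarith : (0 : ℤ) ≤ x)]
      exact ⟨0, by simp [XZ, hx1]⟩
    · have hz2 : 2 ≤ z := by omega
      have hxz : x ≤ z - 1 := by
        by_contra hcon
        have h1 : z ≤ x := by omega
        have h2 : z ^ 2 ≤ x ^ 2 := pow_le_pow_left₀ (by linarith) h1 2
        have h3 : Y * z ^ 2 ≤ Y * x ^ 2 := mul_le_mul_of_nonneg_left h2 (by linarith)
        nlinarith
      have hz1p : 0 < (2 * Y - 1) * z - 2 * Y * x := by
        by_contra hcon
        have h1 : (2 * Y - 1) * z ≤ 2 * Y * x := by linarith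
        have h0 : 0 ≤ (2 * Y - 1) * z := mul_nonneg (by linarith) (by linarith)
        have h2 : ((2 * Y - 1) * z) ^ 2 ≤ (2 * Y * x) ^ 2 := pow_le_pow_left₀ h0 h1 2
        have h3 : z ^ 2 ≤ 4 * Y := by
          have e : (2 * Y * x) ^ 2 = 4 * Y * ((Y - 1) * z ^ 2 + 1) := by
            rw [← h]
            ring
          rw [e] at h2
          nlinarith
        have h4 : 2 * Y * x ≤ 2 * Y * (z - 1) := mul_le_mul_of_nonneg_left hxz (by linarith)
        have h5 : 2 * Y ≤ z := by linarith
        have h6 : (2 * Y) ^ 2 ≤ z ^ 2 := pow_le_pow_left₀ (by linarith) h5 2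
        nlinarith
      have hx1p : 0 < (2 * Y - 1) * x - 2 * (Y - 1) * z := by
        by_contra hcon
        have h1 : (2 * Y - 1) * x ≤ 2 * (Y - 1) * z := by linarith
        have h0 : 0 ≤ (2 * Y - 1) * x := mul_nonneg (by linarith) (by linarith)
        have h2 : ((2 * Y - 1) * x) ^ 2 ≤ (2 * (Y - 1) * z) ^ 2 := pow_le_pow_left₀ h0 h1 2
        have e : (2 * (Y - 1) * z) ^ 2 = ((2 * Y - 1) * x) ^ 2 - x ^ 2 - 4 * (Y - 1) := by
          linear_combination (-4) * (Y - 1) * h
        nlinarith [sq_nonneg x]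
      have hlt : (2 * Y - 1) * z - 2 * Y * x < z := by
        by_contra hcon
        have h1 : Y * x ≤ (Y - 1) * z := by linarith
        have h0 : 0 ≤ Y * x := mul_nonneg (by linarith) (by linarith)
        have h2 : (Y * x) ^ 2 ≤ ((Y - 1) * z) ^ 2 := pow_le_pow_left₀ h0 h1 2
        have e : (Y * x) ^ 2 = ((Y - 1) * z) ^ 2 + (Y - 1) * z ^ 2 + Y := by
          linear_combination Y * h
        have h3 : 0 ≤ (Y - 1) * z ^ 2 := mul_nonneg (by linarith) (sq_nonneg z)
        linarith
      have heq : Y * ((2 * Y - 1) * x - 2 * (Y - 1) * z) ^ 2 =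
          (Y - 1) * ((2 * Y - 1) * z - 2 * Y * x) ^ 2 + 1 := by
        linear_combination h
      obtain ⟨m, hm⟩ := ih _ _ (by linarith) (by linarith) heq (by
        push_cast at hn
        linarith)
      refine ⟨m + 1, ?_⟩
      simp only [XZ, hm, Prod.mk.injEq]
      constructor <;> ring

end Pool.Agent.H58.SL
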